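import Mathlib
import Pool.Agent.Helper889.Nc.Main
import Pool.Agent.Helper889.Nc.Uni
import Pool.Agent.Helper889.Nc.Fol

set_option autoImplicit false

namespace Pool.Agent.Results.MP_059b7e_al.NonAmenable

/-! ### Definitions -/

/-- The vertices of the binary rooted tree: words in the letters `false` (the letter `0`) and
`true` (the letter `1`). -/
abbrev Word := List Bool

/-- The automorphism `a`: `a(xw) = (1-x)w`. -/
def a : Word → Word
  | [] => []
  | x :: w => (!x) :: w

/-- `β(0) = β(1) = a`, `β(2) = 1`. -/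
def beta (i : Fin 3) (w : Word) : Word := if i = 2 then w else a w

/-- `ζ(0) = ζ(2) = a`, `ζ(1) = 1`. -/
def zeta (i : Fin 3) (w : Word) : Word := if i = 1 then w else a w

/-- `δ(0) = 1`, `δ(1) = δ(2) = a`. -/
def delta (i : Fin 3) (w : Word) : Word := if i = 0 then w else a w

/-- For a sequence `ω = ω_1 ω_2 …` (here `ω 0` is `ω_1`) and `θ = β, ζ, δ`, the automorphism `x_ω`
with `x_ω(0w) = 0 θ(ω_1)(w)` and `x_ω(1w) = 1 x_{σω}(w)`, where `σ` is the left shift. -/
def directed (θ : Fin 3 → Word → Word) : (ℕ → Fin 3) → Word → Word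
  | _, [] => []
  | ω, false :: w => false :: θ (ω 0) w
  | ω, true :: w => true :: directed θ (fun n => ω (n + 1)) w

theorem a_invol : Function.Involutive a := by
  intro w
  cases w <;> simp [a]

theorem directed_invol (θ : Fin 3 → Word → Word) (hθ : ∀ i, Function.Involutive (θ i)) (ω : ℕ → Fin 3) :
    Function.Involutive (directed θ ω) := by
  intro w
  induction w generalizing ω with
  | nil => rfl
  | cons x w ih =>
    cases x with
    | false => simp only [directed, hθ (ω 0) w]
    | true => simp only [directed, ih]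

theorem beta_invol (i : Fin 3) : Function.Involutive (beta i) := by
  intro w
  unfold beta
  split_ifs
  · rfl
  · exact a_invol w

theorem zeta_invol (i : Fin 3) : Function.Involutive (zeta i) := by
  intro w
  unfold zeta
  split_ifs
  · rfl
  · exact a_invol w

theorem delta_invol (i : Fin 3) : Function.Involutive (delta i) := by
  intro w
  unfold delta
  split_ifs
  · rfl
  · exact a_invol w

/-- The surjection of the free group `F₄` on `a, b, c, d` (numbered `0, 1, 2, 3`) onto the group
`G_ω ≤ Perm(Word)`, sending `a, b, c, d` to `a, b_ω, c_ω, d_ω`. -/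
def rep (ω : ℕ → Fin 3) : FreeGroup (Fin 4) →* Equiv.Perm Word :=
  FreeGroup.lift ![a_invol.toPerm, (directed_invol beta beta_invol ω).toPerm,
    (directed_invol zeta zeta_invol ω).toPerm, (directed_invol delta delta_invol ω).toPerm]

/-- The group `G_ω`. -/
def Gr (ω : ℕ → Fin 3) : Subgroup (Equiv.Perm Word) := (rep ω).range

/-- `N = ⋂_ω N_ω`, where `N_ω` is the kernel of `F₄ → G_ω`. -/
def N : Subgroup (FreeGroup (Fin 4)) := ⨅ ω : ℕ → Fin 3, (rep ω).ker

instance : N.Normal := Subgroup.normal_iInf_normal fun _ => MonoidHom.normal_ker _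

/-- The universal group `𝒩 = F₄ / N`. -/
abbrev UG : Type := FreeGroup (Fin 4) ⧸ N

open Classical in
/-- `E` is a Folner sequence in the group `M`: the sets `E n` are finite and nonempty and
`|g E_n △ E_n| / |E_n| → 0` for every `g ∈ M`. -/
def IsFolner {M : Type} [Group M] (E : ℕ → Finset M) : Prop :=
  (∀ n, (E n).Nonempty) ∧
    ∀ g : M, Filter.Tendsto (fun n => ((symmDiff ((E n).image fun x => g * x) (E n)).card : ℝ) / (E n).card)
      Filter.atTop (nhds 0)

/-- `m` is a left invariant finitely additive probability measure on all subsets of `M`. -/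
def IsMean {M : Type} [Group M] (m : Set M → ℝ) : Prop :=
  (∀ A, 0 ≤ m A) ∧ m Set.univ = 1 ∧ (∀ A B, Disjoint A B → m (A ∪ B) = m A + m B) ∧
    ∀ (g : M) A, m ((fun x => g * x) '' A) = m A

/-! ### Proof -/

open Pool.Agent.Helper889.Nc in
theorem beta_eq (i : Fin 3) (w : Word) : beta i w = if act 0 i then aF w else w := by
  have ha : ∀ w, a w = aF w := fun w => by cases w <;> rfl
  fin_cases i <;> simp [beta, act, ha]

open Pool.Agent.Helper889.Nc in
theorem zeta_eq (i : Fin 3) (w : Word) : zeta i w = if act 1 i then aF w else w := by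
  have ha : ∀ w, a w = aF w := fun w => by cases w <;> rfl
  fin_cases i <;> simp [zeta, act, ha]

open Pool.Agent.Helper889.Nc in
theorem delta_eq (i : Fin 3) (w : Word) : delta i w = if act 2 i then aF w else w := by
  have ha : ∀ w, a w = aF w := fun w => by cases w <;> rfl
  fin_cases i <;> simp [delta, act, ha]

open Pool.Agent.Helper889.Nc in
theorem directed_eq (k : Fin 3) (θ : Fin 3 → Word → Word) (hθ : ∀ i w, θ i w = if act k i then aF w else w)
    (w : Word) : ∀ ω, directed θ ω w = genF k ω w := by
  induction w with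
  | nil => intro ω; rfl
  | cons x w ih =>
    intro ω
    cases x with
    | false => simp only [directed, genF, hθ]
    | true => simp only [directed, genF, ih]

open Pool.Agent.Helper889.Nc in
theorem rep_eq (ω : ℕ → Fin 3) : rep ω = phi ω := by
  unfold rep phi
  congr 1
  funext i
  fin_cases i
  · ext w : 1
    change a w = aF w
    cases w <;> rfl
  · ext w : 1
    exact directed_eq 0 beta beta_eq w ω
  · ext w : 1
    exact directed_eq 1 zeta zeta_eq w ω
  · ext w : 1
    exact directed_eq 2 delta delta_eq w ω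

open Pool.Agent.Helper889.Nc in
theorem N_eq : N = NN := by
  unfold N NN
  simp only [rep_eq]

open Pool.Agent.Helper889.Nc in
/-- the homomorphism onto the groups of the family -/
theorem exists_surj (s : ZMod 9) : ∃ f : UG →* DD s, Function.Surjective f := by
  let L : FreeGroup (Fin 4) →* Equiv.Perm (List Lt) := FreeGroup.lift ![rt s tt, dr s (tt, 1), dr s (1, tt), dr s (tt, tt)]
  have hmem : ∀ g, L g ∈ DD s := fun g => by
    rw [← lift_closure s]
    exact ⟨g, rfl⟩
  let L' : FreeGroup (Fin 4) →* DD s := L.codRestrict (DD s) hmem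
  have hker : ∀ g ∈ N, L' g = 1 := by
    intro g hg
    rw [N_eq] at hg
    exact Subtype.ext (lift_trivial s g hg)
  refine ⟨QuotientGroup.lift N L' hker, ?_⟩
  rintro ⟨p, hp⟩
  have hp' := hp
  rw [← lift_closure s] at hp'
  obtain ⟨g, hg⟩ := hp'
  exact ⟨QuotientGroup.mk g, Subtype.ext hg⟩

open Pool.Agent.Helper889.Nc in
theorem no_mean : ¬ ∃ m : Set UG → ℝ, IsMean m := by
  classical
  intro h
  have h' : ∀ s : ZMod 9, ∃ m : Set (DD s) → ℝ, (∀ A, 0 ≤ m A) ∧ m Set.univ = 1 ∧
      (∀ A B, Disjoint A B → m (A ∪ B) = m A + m B) ∧ ∀ (g : DD s) A, m ((fun x => g * x) '' A) = m A := by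
    intro s
    obtain ⟨f, hf⟩ := exists_surj s
    exact mean_of_surjective f hf h
  choose m h0 h1 hadd hinv using h'
  choose c hc hc' using exists_gd
  choose L hL using fun s => exists_lvl s (c s) (hc s) (hc' s) (c (s + 1)) (hc (s + 1)) (hc' (s + 1))
  refine family_no_means c II L ?_ card_prod m h0 h1 hadd hinv
  intro v hv
  obtain ⟨s, hs⟩ := force v hv
  exact ⟨s, fun i => by rw [hL]; exact hs i⟩

theorem folner_mean {M : Type} [Group M] (E : ℕ → Finset M) (hE : IsFolner E) : ∃ m : Set M → ℝ, IsMean m := by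
  classical
  exact Pool.Agent.Helper889.Nc.mean_of_folner E hE.1 hE.2

/-- The universal group `𝒩 = F₄/N` of the groups `G_ω` is not amenable: it has no Folner
sequence, and there is no invariant finitely additive probability measure on it. -/
theorem result : (¬ ∃ E : ℕ → Finset UG, IsFolner E) ∧ ¬ ∃ m : Set UG → ℝ, IsMean m :=
  ⟨fun ⟨E, hE⟩ => no_mean (folner_mean E hE), no_mean⟩

end Pool.Agent.Results.MP_059b7e_al.NonAmenable
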